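import Pool.Agent.helper84.NR.SpecW

set_option autoImplicit false

namespace Pool.Agent.helper84.NR

open scoped Classical
open Finset

theorem STE : STE_stmt := by
  intro V F _ _ M x y J hT q hq v hv e e' hve hve' hc hc' hH
  by_contra hne
  have hvx : v ≠ x := by
    rintro rfl
    exact hc.1 hve
  obtain ⟨A, hAx, hAe⟩ := hc.2
  have hAv : OnV M.toCyc A v := by
    obtain ⟨k, rfl⟩ := hAe
    rcases Sym2.mem_iff.mp hve with h | h
    · exact ⟨k, h.symm⟩
    · exact ⟨k + 1, h.symm⟩
  have hC := (h_DEG V F M x).2.2.2.2 v hvx ⟨A, hAx, hAv⟩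
  have hP := h_PAR V F M {f | Quot.mk (lk M (inU M x y J)) f = q} v
  have hee : e ≠ e' := by
    rintro rfl
    exact hne hH
  have hkey : ∀ h : Sym2 V, (v ∈ h ∧ (∃ f, OnE M.toCyc f h ∧
      f ∈ {f | Quot.mk (lk M (inU M x y J)) f = q}) ∧
      ∃ g, OnE M.toCyc g h ∧ g ∉ {f | Quot.mk (lk M (inU M x y J)) f = q}) ↔ h = e := by
    intro h
    constructor
    · rintro ⟨hvh, ⟨f, hf, hfS⟩, g, hg, hgS⟩
      have hU : inU M x y J h := by
        by_contra hn
        exact hgS ((Quot.sound (⟨h, hn, hg, hf⟩ : lk M (inU M x y J) g f)).trans hfS)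
      have hcx : cx M x h := by
        rcases hU with hcc | ⟨B, hB, k, _, hk⟩
        · exact hcc
        · exfalso
          apply hv
          refine ⟨B, hT.jy B hB, ?_⟩
          rw [hk] at hvh
          rcases Sym2.mem_iff.mp hvh with h1 | h1
          · exact ⟨_, h1.symm⟩
          · exact ⟨_, h1.symm⟩
      by_contra hhe
      have hhe' : h ≠ e' := by
        rintro rfl
        exact hne ⟨f, hf, hfS⟩
      have hsub : ({e, e', h} : Finset (Sym2 V)) ⊆ univ.filter (fun e : Sym2 V => v ∈ e ∧ x ∉ e ∧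
          ∃ A, OnV M.toCyc A x ∧ OnE M.toCyc A e) := by
        intro d hd
        rw [mem_filter]
        refine ⟨mem_univ _, ?_⟩
        rw [mem_insert, mem_insert, mem_singleton] at hd
        rcases hd with rfl | rfl | rfl
        · exact ⟨hve, hc.1, hc.2⟩
        · exact ⟨hve', hc'.1, hc'.2⟩
        · exact ⟨hvh, hcx.1, hcx.2⟩
      have h3 := card_le_card hsub
      rw [hC, card_insert_of_notMem (by
        rw [mem_insert, mem_singleton]
        rintro (h1 | h1)
        · exact hee h1
        · exact hhe h1.symm), card_insert_of_notMem (by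
        rw [mem_singleton]
        exact fun h1 => hhe' h1.symm), card_singleton] at h3
      omega
    · rintro rfl
      obtain ⟨g, hg, hgq⟩ := hH
      exact ⟨hve, ⟨g, hg, hgq⟩, A, hAe, fun h => hq.1 A hAx h⟩
  rw [filter_congr (fun h _ => hkey h), filter_eq' univ e, if_pos (mem_univ e), card_singleton] at hP
  exact absurd hP (by decide)

end Pool.Agent.helper84.NR
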